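import Mathlib
import Pool.Agent.Y530.TM.Defs
import Pool.Agent.Y647.RG.Cover

/-!
# X-replacements for which the rank is attained by a partition of the vertices
-/

set_option autoImplicit false

namespace Pool.Agent.Y794.TM.Xr

open Finset Pool.Agent.H283R2.DR Pool.Agent.H789R5 Pool.Agent.Y530.TN Pool.Agent.Y530.TM

theorem rk_succ (n : ℕ) : rk (n + 1) = rk n + min n 3 := by
  unfold rk
  split_ifs <;> omega

open Classical in
/-- the edges inside a set -/
noncomputable def ins {V : Type} [Fintype V] (G : SimpleGraph V) (S : Finset V) :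
    Finset (Sym2 V) :=
  G.edgeFinset.filter (fun z => ∀ x ∈ z, x ∈ S)

theorem mem_ins {V : Type} [Fintype V] {G : SimpleGraph V} {S : Finset V} {z : Sym2 V} :
    z ∈ ins G S ↔ z ∈ G.edgeSet ∧ ∀ x ∈ z, x ∈ S := by
  classical
  unfold ins
  rw [mem_filter, SimpleGraph.mem_edgeFinset]

open Classical in
/-- indicator -/
noncomputable def ind (P : Prop) : ℕ := if P then 1 else 0

theorem num (p q r t u : Prop) : ind p + ind q + ind r + ind t + ind u ≤
      3 + ind (p ∧ q) + ind (r ∧ t) := by
  unfold ind
  by_cases hp : p <;> by_cases hq : q <;> by_cases hr : r <;> by_cases ht : t <;>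
    by_cases hu : u <;> simp [hp, hq, hr, ht, hu]

open Classical in
theorem lemB {V : Type} [Fintype V] (G : SimpleGraph V) (a b c d e : V)
    (hne : s(a, b) ≠ s(c, d)) (hab : G.Adj a b) (hcd : G.Adj c d)
    (hG : ∀ S : Finset V, (ins G S).card ≤ rk S.card) (X : Finset (Option V)) :
    (ins (xrep G a b c d e) X).card ≤ rk X.card := by
  obtain ⟨S, hS⟩ : ∃ S : Finset V, ∀ v, v ∈ S ↔ some v ∈ X :=
    ⟨univ.filter (fun v => some v ∈ X), fun v => by simp⟩
  obtain ⟨A, hA⟩ : ∃ A : Finset (Sym2 (Option V)),
    A = (((ins G S).erase s(a, b)).erase s(c, d)).image (Sym2.map some) := ⟨_, rfl⟩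
  obtain ⟨B, hB⟩ : ∃ B : Finset (Sym2 (Option V)),
    B = (({a, b, c, d, e} : Finset V).filter (fun v => v ∈ S ∧ none ∈ X)).image
      (fun u => s(none, some u)) := ⟨_, rfl⟩
  have key : ∀ x y : Option V, x ∈ X → y ∈ X →
      ((∃ u w, x = some u ∧ y = some w ∧ G.Adj u w ∧ s(u, w) ≠ s(a, b) ∧ s(u, w) ≠ s(c, d)) ∨
      (x = none ∧ ∃ u, (u = a ∨ u = b ∨ u = c ∨ u = d ∨ u = e) ∧ y = some u)) →
      s(x, y) ∈ A ∪ B := by
    rintro x y hx hy (⟨u, w, rfl, rfl, h1, h2, h3⟩ | ⟨rfl, u, hu, rfl⟩)
    · apply mem_union_left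
      rw [hA, mem_image]
      refine ⟨s(u, w), ?_, rfl⟩
      rw [mem_erase, mem_erase]
      refine ⟨h3, h2, ?_⟩
      rw [mem_ins]
      refine ⟨h1, ?_⟩
      intro v hv
      rw [Sym2.mem_iff] at hv
      rw [hS]
      rcases hv with rfl | rfl
      · exact hx
      · exact hy
    · apply mem_union_right
      rw [hB, mem_image]
      refine ⟨u, ?_, rfl⟩
      rw [mem_filter]
      refine ⟨?_, ?_, hx⟩
      · simp only [mem_insert, mem_singleton]
        exact hu
      · rw [hS]
        exact hy
  have hsub : ins (xrep G a b c d e) X ⊆ A ∪ B := by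
    intro z hz
    rw [mem_ins] at hz
    obtain ⟨hz, hin⟩ := hz
    induction z using Sym2.ind with
    | _ x y =>
      rw [SimpleGraph.mem_edgeSet, xrep, SimpleGraph.fromRel_adj] at hz
      have hx : x ∈ X := hin x (Sym2.mem_mk_left x y)
      have hy : y ∈ X := hin y (Sym2.mem_mk_right x y)
      rcases hz.2 with h | h
      · exact key x y hx hy h
      · rw [Sym2.eq_swap]
        exact key y x hy hx h
  have h1 : (ins (xrep G a b c d e) X).card ≤ A.card + B.card :=
    (card_le_card hsub).trans (card_union_le _ _)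
  have hcS : S.card = (X.erase none).card := by
    rw [← card_image_of_injective S (Option.some_injective V)]
    congr 1
    ext x
    cases x with
    | none => simp
    | some v => simp [hS]
  have he : ∀ (x : Sym2 V) (T : Finset (Sym2 V)) (P : Prop), (P → x ∈ T) →
      (T.erase x).card + ind P ≤ T.card := by
    intro x T P hP
    unfold ind
    split_ifs with h
    · rw [card_erase_add_one (hP h)]
    · rw [add_zero]
      exact card_erase_le
  have hAc : A.card + ind (a ∈ S ∧ b ∈ S) + ind (c ∈ S ∧ d ∈ S) ≤ (ins G S).card := by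
    have e1 := he s(a, b) (ins G S) (a ∈ S ∧ b ∈ S) (fun h => by
      rw [mem_ins]
      refine ⟨hab, fun x hx => ?_⟩
      rw [Sym2.mem_iff] at hx
      rcases hx with rfl | rfl
      · exact h.1
      · exact h.2)
    have e2 := he s(c, d) ((ins G S).erase s(a, b)) (c ∈ S ∧ d ∈ S) (fun h => by
      rw [mem_erase, mem_ins]
      refine ⟨hne.symm, hcd, fun x hx => ?_⟩
      rw [Sym2.mem_iff] at hx
      rcases hx with rfl | rfl
      · exact h.1
      · exact h.2)
    have e3 : A.card ≤ (((ins G S).erase s(a, b)).erase s(c, d)).card := by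
      rw [hA]
      exact card_image_le
    omega
  have hGS := hG S
  by_cases hX : none ∈ X
  · have e1 : X.card = S.card + 1 := by
      rw [hcS, card_erase_add_one hX]
    have hB0 : B.card ≤ (({a, b, c, d, e} : Finset V).filter (fun v => v ∈ S)).card := by
      rw [hB]
      refine card_image_le.trans (card_le_card ?_)
      intro v hv
      rw [mem_filter] at hv ⊢
      exact ⟨hv.1, hv.2.1⟩
    have hB1 : B.card ≤ S.card := by
      refine hB0.trans (card_le_card ?_)
      intro v hv
      exact (mem_filter.1 hv).2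
    have hfi : ∀ (x : V) (T : Finset V), ((insert x T).filter (fun v => v ∈ S)).card ≤
        ind (x ∈ S) + (T.filter (fun v => v ∈ S)).card := by
      intro x T
      rw [filter_insert]
      unfold ind
      split_ifs with h
      · have := card_insert_le x (T.filter (fun v => v ∈ S))
        omega
      · omega
    have f1 := hfi a {b, c, d, e}
    have f2 := hfi b {c, d, e}
    have f3 := hfi c {d, e}
    have f4 := hfi d {e}
    have f5 := hfi e ∅
    rw [filter_empty, card_empty] at f5
    have f6 : (({e} : Finset V).filter (fun v => v ∈ S)).card =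
        ((insert e (∅ : Finset V)).filter (fun v => v ∈ S)).card := rfl
    have f7 := num (a ∈ S) (b ∈ S) (c ∈ S) (d ∈ S) (e ∈ S)
    rw [e1, rk_succ]
    rcases le_total S.card 3 with h3 | h3
    · rw [min_eq_left h3]
      omega
    · rw [min_eq_right h3]
      omega
  · have e1 : X.card = S.card := by
      rw [hcS, erase_eq_of_notMem hX]
    have hB0 : B = ∅ := by
      rw [hB]
      simp [hX]
    rw [hB0, card_empty] at h1
    rw [e1]
    omega

open Classical in
theorem count {V C : Type} [Fintype V] [Fintype C] (G : SimpleGraph V) (γ : V → C)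
    (hG : ∀ S : Finset V, (ins G S).card ≤ rk S.card) :
    G.edgeSet.ncard ≤ ∑ c, rk {v | γ v = c}.ncard + (cross G γ).ncard := by
  have e1 : G.edgeSet.ncard = G.edgeFinset.card := by
    rw [Set.ncard_eq_toFinset_card', SimpleGraph.edgeFinset]
  have e2 : (cross G γ).ncard = (cross G γ).toFinset.card := Set.ncard_eq_toFinset_card' _
  have hsub : G.edgeFinset ⊆ (univ.biUnion fun c => ins G (univ.filter fun v => γ v = c)) ∪
      (cross G γ).toFinset := by
    intro z hz
    rw [SimpleGraph.mem_edgeFinset] at hz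
    induction z using Sym2.ind with
    | _ x y =>
      rw [SimpleGraph.mem_edgeSet] at hz
      by_cases h : γ x = γ y
      · apply mem_union_left
        rw [mem_biUnion]
        refine ⟨γ x, mem_univ _, ?_⟩
        rw [mem_ins]
        refine ⟨hz, fun v hv => ?_⟩
        rw [Sym2.mem_iff] at hv
        rw [mem_filter]
        rcases hv with rfl | rfl
        · exact ⟨mem_univ _, rfl⟩
        · exact ⟨mem_univ _, h.symm⟩
      · apply mem_union_right
        rw [Set.mem_toFinset]
        exact ⟨x, y, hz, h, rfl⟩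
  rw [e1, e2]
  refine (card_le_card hsub).trans ((card_union_le _ _).trans (Nat.add_le_add_right ?_ _))
  refine card_biUnion_le.trans (sum_le_sum fun c _ => ?_)
  have e3 : {v | γ v = c}.ncard = (univ.filter fun v => γ v = c).card := by
    rw [Set.ncard_eq_toFinset_card']
    congr 1
    ext v
    simp
  rw [e3]
  exact hG _

theorem rank_le {V : Type} [Fintype V] (G : SimpleGraph V) (p : V → Fin 3 → ℝ) :
    (rigidityMatrix G p).rank ≤ genRank 3 G := by
  obtain ⟨p0, hp0⟩ := exists_mg V 3
  have h0 := genRank_add hp0 G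
  have h2 := rank_add_mo G p
  have h3 := hp0.min G p
  omega

theorem indep_of_rank {V : Type} [Fintype V] (G : SimpleGraph V)
    (h : G.edgeSet.ncard ≤ genRank 3 G) : Independent G := by
  classical
  obtain ⟨p, hp⟩ := exists_mg V 3
  have e1 := genRank_add hp G
  have e2 := rank_add_mo G p
  refine ⟨p, ?_⟩
  rw [linearIndependent_iff_card_le_finrank_span]
  have e5 : (rigidityMatrix G p).rank = (Set.range (rigidityMatrix G p).row).finrank ℝ :=
    Matrix.rank_eq_finrank_span_row _
  rw [← e5]
  have e6 : Fintype.card G.edgeSet = G.edgeSet.ncard := by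
    rw [Set.ncard_eq_toFinset_card', Set.toFinset_card]
  omega

theorem rank_sub {V : Type} [Fintype V] {G H : SimpleGraph V} (hle : H ≤ G)
    (h : Independent G) : H.edgeSet.ncard ≤ genRank 3 H := by
  classical
  obtain ⟨p, hp⟩ := h
  let φ : H.edgeSet → G.edgeSet := fun e => ⟨e.1, SimpleGraph.edgeSet_mono hle e.2⟩
  have hφ : Function.Injective φ := fun x y hxy => Subtype.ext (congrArg (fun z => z.1) hxy)
  have hrow : ∀ e : H.edgeSet, (rigidityMatrix H p).row e = (rigidityMatrix G p).row (φ e) := by
    rintro ⟨e, he⟩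
    induction e using Sym2.ind with
    | _ x y => rfl
  have h1 : LinearIndependent ℝ (rigidityMatrix H p).row := by
    have h2 := hp.comp φ hφ
    have h3 : ((rigidityMatrix G p).row ∘ φ) = (rigidityMatrix H p).row :=
      funext fun e => (hrow e).symm
    rwa [h3] at h2
  have h2 := finrank_span_eq_card h1
  have h3 : (rigidityMatrix H p).rank =
      Module.finrank ℝ (Submodule.span ℝ (Set.range (rigidityMatrix H p).row)) :=
    Matrix.rank_eq_finrank_span_row _
  have h6 := rank_le H p
  have e6 : Fintype.card H.edgeSet = H.edgeSet.ncard := by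
    rw [Set.ncard_eq_toFinset_card', Set.toFinset_card]
  omega

/-- the edges of `G` inside a set, as a graph -/
def ing {V : Type} (G : SimpleGraph V) (S : Finset V) : SimpleGraph V where
  Adj u v := G.Adj u v ∧ u ∈ S ∧ v ∈ S
  symm := ⟨fun _ _ h => ⟨h.1.symm, h.2.2, h.2.1⟩⟩
  loopless := ⟨fun _ h => h.1.ne rfl⟩

theorem lemA {V : Type} [Fintype V] {G : SimpleGraph V} (h : Independent G) (S : Finset V) :
    (ins G S).card ≤ rk S.card := by
  classical
  have h1 := rank_sub (H := ing G S) (fun u v huv => huv.1) h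
  have h0 : Pool.Agent.Y647.RG.TwoFold (fun _ : Unit => S) := by
    intro v
    refine (Finset.card_le_univ _).trans ?_
    simp
  have h2 := Pool.Agent.Y647.RG.upper h0 (G := ing G S)
    (fun u v huv => ⟨(), huv.2.1, huv.2.2⟩)
  have h3 : (ing G S).edgeSet.ncard = (ins G S).card := by
    rw [← Set.ncard_coe_finset]
    congr 1
    ext z
    rw [Finset.mem_coe, mem_ins]
    induction z using Sym2.ind with
    | _ x y =>
      rw [SimpleGraph.mem_edgeSet, SimpleGraph.mem_edgeSet]
      constructor
      · rintro ⟨i1, i2, i3⟩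
        refine ⟨i1, fun v hv => ?_⟩
        rw [Sym2.mem_iff] at hv
        rcases hv with rfl | rfl
        · exact i2
        · exact i3
      · rintro ⟨i1, i2⟩
        exact ⟨i1, i2 x (Sym2.mem_mk_left x y), i2 y (Sym2.mem_mk_right x y)⟩
  have h5 : ∑ c : Unit, Pool.Agent.W824.BJ.rho ((fun _ : Unit => S) c).card = rk S.card := by
    rw [Fintype.sum_unique]
    rfl
  rw [h5] at h2
  omega

theorem t : S_XR := by
  intro V C _ _ G a b c d e γ hnd hab hcd hG hval
  simp only [List.nodup_cons, List.mem_cons, List.not_mem_nil, or_false, not_or, List.nodup_nil,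
    and_true, not_false_eq_true] at hnd
  obtain ⟨⟨n1, n2, n3, n4⟩, ⟨n5, n6, n7⟩, ⟨n8, n9⟩, n10⟩ := hnd
  have hne' : s(a, b) ≠ s(c, d) := by
    intro h
    rcases Sym2.eq_iff.1 h with ⟨h1, -⟩ | ⟨h1, -⟩
    · exact n2 h1
    · exact n3 h1
  apply indep_of_rank
  rw [hval]
  unfold Pool.Agent.Y530.TM.val
  exact count (xrep G a b c d e) γ (fun S => lemB G a b c d e hne' hab hcd (lemA hG) S)

end Pool.Agent.Y794.TM.Xr
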